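import Pool.Agent.H.MP_cc29fe_co.A

set_option autoImplicit false

namespace Pool.Agent.H.MP_94f1c2_co

open SimpleGraph Function Pool.Agent.H.MP_cc29fe_co

lemma bondy0 {V β : Type} [Finite β] (r : V → β → Prop) (A : Set β) (W S : Set V) (hS : S ⊆ W)
    (E : Finset V) (hE : ∀ y ∈ E, y ∈ W ∧ y ∉ S ∧ ∃ p ∈ A, ∃ q ∈ A,
      (∀ z ∈ W, z ≠ y → (r z p ↔ r z q)) ∧ ¬ (r y p ↔ r y q)) :
    ((fun p => {z | z ∈ S ∧ r z p}) '' A).ncard + E.card ≤
      ((fun p => {z | z ∈ S ∪ E ∧ r z p}) '' A).ncard := by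
  classical
  induction E using Finset.induction_on with
  | empty => simp
  | insert y E hy ih =>
    have h1 := ih fun z hz => hE z (Finset.mem_insert_of_mem hz)
    obtain ⟨yW, yS, p, hp, q, hq, e1, e2⟩ := hE y (Finset.mem_insert_self _ _)
    have h2 := ref_lt A (fun p => {z | z ∈ S ∪ (insert y E : Finset V) ∧ r z p})
      (fun p => {z | z ∈ S ∪ E ∧ r z p}) (by
        intro a _ b _ h
        ext z
        have := Set.ext_iff.1 h z
        simp only [Set.mem_ofPred_eq, Set.mem_union, Finset.coe_insert, Set.mem_insert_iff,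
          Finset.mem_coe] at this ⊢
        tauto) hp hq (by
        ext z
        simp only [Set.mem_ofPred_eq, Set.mem_union, Finset.mem_coe]
        refine and_congr_right fun hz => e1 z ?_ ?_
        · rcases hz with hz | hz
          · exact hS hz
          · exact (hE z (Finset.mem_insert_of_mem hz)).1
        · rintro rfl
          rcases hz with hz | hz
          · exact yS hz
          · exact hy hz) (by
        intro h
        have := Set.ext_iff.1 h y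
        simp only [Set.mem_ofPred_eq, Set.mem_union, Finset.coe_insert, Set.mem_insert_iff,
          Finset.mem_coe, true_or, or_true, true_and] at this
        exact e2 this)
    rw [Finset.card_insert_of_notMem hy]
    omega

def Sep {V β : Type} (r : V → β → Prop) (W : Set V) (A : Set β) : Prop :=
  ∀ p ∈ A, ∀ q ∈ A, (∀ z ∈ W, r z p ↔ r z q) → p = q

lemma bondy {V β : Type} [Finite V] [Finite β] (r : V → β → Prop) (A : Set β) (W S : Set V)
    (hS : S ⊆ W) (hW : Sep r W A) (E : Set V) (hE : ∀ y ∈ E, y ∈ W ∧ y ∉ S ∧ ∃ p ∈ A, ∃ q ∈ A,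
      p ≠ q ∧ ∀ z ∈ W, z ≠ y → (r z p ↔ r z q)) (M : Set β) (hM : M ⊆ A) (hs : Sep r S M) :
    M.ncard + E.ncard ≤ A.ncard := by
  have h := bondy0 r A W S hS (Set.toFinite E).toFinset (by
    intro y hy
    rw [Set.Finite.mem_toFinset] at hy
    obtain ⟨a, b, p, hp, q, hq, h1, h2⟩ := hE y hy
    refine ⟨a, b, p, hp, q, hq, h2, fun h3 => h1 (hW p hp q hq fun z hz => ?_)⟩
    by_cases e : z = y
    · rw [e]; exact h3
    · exact h2 z hz e)
  rw [← Set.ncard_eq_toFinset_card] at h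
  have h1 := Set.ncard_image_le (s := A)
    (f := fun p => {z | z ∈ S ∪ (Set.toFinite E).toFinset ∧ r z p}) (Set.toFinite _)
  have h2 : ((fun p => {z | z ∈ S ∧ r z p}) '' M).ncard = M.ncard := by
    apply Set.InjOn.ncard_image
    intro p hp q hq e
    refine hs p hp q hq fun z hz => ?_
    have := Set.ext_iff.1 e z
    simp only [Set.mem_ofPred_eq, hz, true_and] at this
    exact this
  have h3 := Set.ncard_le_ncard (Set.image_mono (f := fun p => {z | z ∈ S ∧ r z p}) hM)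
    ((Set.toFinite A).image _)
  omega

variable {V : Type}

def rl (G : SimpleGraph V) (z : V) : Option V → Prop
  | none => False
  | some u => G.Adj z u

def UP (X : Set V) : Set (Option V) := insert none (some '' X)

lemma UP_card [Finite V] (X : Set V) : (UP X).ncard = X.ncard + 1 := by
  rw [UP, Set.ncard_insert_of_notMem (by simp),
    Set.ncard_image_of_injective _ (Option.some_injective V)]

lemma UP_mono {X Y : Set V} (h : X ⊆ Y) : UP X ⊆ UP Y :=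
  Set.insert_subset_insert (Set.image_mono h)

lemma sep_UP {G : SimpleGraph V} {W X : Set V} : Sep (rl G) W (UP X) ↔
    (∀ u ∈ X, ∃ z ∈ W, G.Adj z u) ∧
      ∀ u ∈ X, ∀ v ∈ X, (∀ z ∈ W, G.Adj z u ↔ G.Adj z v) → u = v := by
  constructor
  · intro h
    refine ⟨fun u hu => ?_, fun u hu v hv e => ?_⟩
    · by_contra hn
      have := h (some u) (Or.inr ⟨u, hu, rfl⟩) none (Or.inl rfl) fun z hz =>
        ⟨fun a => hn ⟨z, hz, a⟩, False.elim⟩
      simp at this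
    · exact Option.some.inj (h (some u) (Or.inr ⟨u, hu, rfl⟩) (some v) (Or.inr ⟨v, hv, rfl⟩) e)
  · rintro ⟨h1, h2⟩ p hp q hq e
    rcases hp with rfl | ⟨u, hu, rfl⟩ <;> rcases hq with rfl | ⟨v, hv, rfl⟩
    · rfl
    · obtain ⟨z, hz, a⟩ := h1 v hv
      exact ((e z hz).2 a).elim
    · obtain ⟨z, hz, a⟩ := h1 u hu
      exact ((e z hz).1 a).elim
    · rw [h2 u hu v hv e]

lemma not_sep {β : Type} {r : V → β → Prop} {W : Set V} {A : Set β} {y : V}
    (h : ¬ Sep r (W \ {y}) A) :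
    ∃ p ∈ A, ∃ q ∈ A, p ≠ q ∧ ∀ z ∈ W, z ≠ y → (r z p ↔ r z q) := by
  by_contra hn
  refine h fun p hp q hq e => ?_
  by_contra hne
  exact hn ⟨p, hp, q, hq, hne, fun z hz hy => e z ⟨hz, hy⟩⟩

def LTD (G : SimpleGraph V) (D : Set V) : Prop :=
  (∀ v, ∃ z ∈ D, G.Adj z v) ∧ ∀ u ∉ D, ∀ v ∉ D, (∀ z ∈ D, G.Adj z u ↔ G.Adj z v) → u = v

def Lf (G : SimpleGraph V) (D : Set V) : Set V :=
  {v | v ∈ D ∧ ∃ y, ∀ w ∈ D, G.Adj w v → w = y}

structure Opt (G : SimpleGraph V) (D : Set V) : Prop where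
  ltd : LTD G D
  min : ∀ D', LTD G D' → D.ncard ≤ D'.ncard
  lf : ∀ D', LTD G D' → D'.ncard = D.ncard → (Lf G D).ncard ≤ (Lf G D').ncard

lemma exists_opt [Finite V] {G : SimpleGraph V} (hiso : ∀ v, ∃ u, G.Adj v u) :
    ∃ D, Opt G D := by
  obtain ⟨D0, h0, m0⟩ := Set.exists_min_image {D | LTD G D} Set.ncard (Set.toFinite _)
    ⟨Set.univ, fun v => (hiso v).imp fun u h => ⟨trivial, h.symm⟩, fun u hu => absurd trivial hu⟩
  obtain ⟨D, h, m⟩ := Set.exists_min_image {D | LTD G D ∧ D.ncard = D0.ncard}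
    (fun D => (Lf G D).ncard) (Set.toFinite _) ⟨D0, h0, rfl⟩
  exact ⟨D, h.1, fun D' h' => h.2 ▸ m0 D' h', fun D' h' e => m D' ⟨h', e.trans h.2⟩⟩

/-- `y` is not needed to tell the outside vertices apart -/
def Red (G : SimpleGraph V) (D : Set V) (y : V) : Prop := y ∈ D ∧ Sep (rl G) (D \ {y}) (UP Dᶜ)

def Par (G : SimpleGraph V) (D : Set V) (y b : V) : Prop :=
  b ∉ D ∧ ∀ z ∈ D, z ≠ y → (G.Adj z y ↔ G.Adj z b)

def Rb (G : SimpleGraph V) (D : Set V) : Set V := {y | Red G D y ∧ ∃ b, Par G D y b}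
def Rc (G : SimpleGraph V) (D : Set V) : Set V := {y | Red G D y ∧ ¬ ∃ b, Par G D y b}

variable [Finite V] {G : SimpleGraph V} {D : Set V}

lemma Opt.leaf (h : Opt G D) {y : V} (hy : y ∈ Rc G D) :
    ∃ z ∈ D, G.Adj y z ∧ ∀ w ∈ D, G.Adj w z → w = y := by
  by_contra hn
  obtain ⟨⟨yD, hs⟩, hp⟩ := hy
  obtain ⟨s1, s2⟩ := sep_UP.1 hs
  have : LTD G (D \ {y}) := by
    refine ⟨fun v => ?_, fun u hu v hv e => ?_⟩
    · by_cases hv : v ∈ D
      · by_contra h2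
        obtain ⟨z, hz, a⟩ := h.ltd.1 v
        have all : ∀ w ∈ D, G.Adj w v → w = y := fun w hw a => by
          by_contra h3
          exact h2 ⟨w, ⟨hw, h3⟩, a⟩
        exact hn ⟨v, hv, all z hz a ▸ a, all⟩
      · exact s1 v hv
    · by_cases h1 : u = y
      · by_cases h2 : v = y
        · rw [h1, h2]
        · exact absurd ⟨v, fun a => hv ⟨a, h2⟩, fun z hz hy => h1 ▸ e z ⟨hz, hy⟩⟩ hp
      · by_cases h2 : v = y
        · exact absurd ⟨u, fun a => hu ⟨a, h1⟩, fun z hz hy => h2 ▸ (e z ⟨hz, hy⟩).symm⟩ hp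
        · exact s2 u (fun a => hu ⟨a, h1⟩) v (fun a => hv ⟨a, h2⟩) e
  have h1 := h.min _ this
  have h2 := Set.ncard_sdiff_singleton_lt_of_mem yD (Set.toFinite _)
  omega

lemma Opt.swap (h : Opt G D) {y z u : V} (hy : y ∈ Rc G D) (hz : z ∈ Rc G D) (a : G.Adj y z)
    (ly : ∀ w ∈ D, G.Adj w y → w = z) (lz : ∀ w ∈ D, G.Adj w z → w = y) (uz : u ≠ z)
    (uy : G.Adj u y) (nz : ¬ G.Adj u z) : False := by
  have uD : u ∉ D := fun e => uz (ly u e uy)
  obtain ⟨s1, s2⟩ := sep_UP.1 hz.1.2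
  have l : LTD G (insert u (D \ {z})) := by
    refine ⟨fun v => ?_, fun p hp q hq e => ?_⟩
    · by_cases hv : v ∈ D
      · obtain ⟨w, hw, b⟩ := h.ltd.1 v
        by_cases e : w = z
        · subst e
          exact ⟨u, Or.inl rfl, lz v hv b.symm ▸ uy⟩
        · exact ⟨w, Or.inr ⟨hw, e⟩, b⟩
      · obtain ⟨w, hw, b⟩ := s1 v hv
        exact ⟨w, Or.inr hw, b⟩
    · have e' : ∀ w ∈ D \ {z}, G.Adj w p ↔ G.Adj w q := fun w hw => e w (Or.inr hw)
      by_cases h1 : p = z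
      · by_cases h2 : q = z
        · rw [h1, h2]
        · exact absurd ⟨q, fun a => hq (Or.inr ⟨a, h2⟩), fun w hw hy => h1 ▸ e' w ⟨hw, hy⟩⟩ hz.2
      · by_cases h2 : q = z
        · exact absurd ⟨p, fun a => hp (Or.inr ⟨a, h1⟩),
            fun w hw hy => h2 ▸ (e' w ⟨hw, hy⟩).symm⟩ hz.2
        · exact s2 p (fun a => hp (Or.inr ⟨a, h1⟩)) q (fun a => hq (Or.inr ⟨a, h2⟩)) e'
  have c : (insert u (D \ {z})).ncard = D.ncard := by
    rw [Set.ncard_insert_of_notMem (fun a => uD a.1), Set.ncard_sdiff_singleton_add_one hz.1.1]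
  have h1 := h.lf _ l c
  obtain ⟨x, hx, xu⟩ := (sep_UP.1 hy.1.2).1 u uD
  have xz : x ≠ z := by
    rintro rfl
    exact nz xu.symm
  have : Lf G (insert u (D \ {z})) ⊂ Lf G D := by
    refine ⟨?_, fun hh => ?_⟩
    · rintro v ⟨hv, t, ht⟩
      rcases hv with rfl | hv
      · have e1 := ht x (Or.inr ⟨hx.1, xz⟩) xu
        have e2 := ht y (Or.inr ⟨hy.1.1, a.ne⟩) uy.symm
        exact absurd (e1.trans e2.symm) hx.2
      · by_cases e : v = y
        · exact ⟨hv.1, z, e ▸ ly⟩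
        · refine ⟨hv.1, t, fun w hw b => ht w (Or.inr ⟨hw, ?_⟩) b⟩
          rintro rfl
          exact e (lz v hv.1 b.symm)
    · rcases (hh ⟨hz.1.1, y, lz⟩).1 with e | e
      · exact uz e.symm
      · exact e.2 rfl
  have := Set.ncard_lt_ncard this (Set.toFinite _)
  omega

lemma Opt.claim1 (h : Opt G D)
    (htw : ∀ u v, u ≠ v → ∃ w, w ≠ u ∧ w ≠ v ∧ ¬ (G.Adj w u ↔ G.Adj w v)) {y z : V}
    (hy : y ∈ Rc G D) (hz : z ∈ Rc G D) (a : G.Adj y z) (lz : ∀ w ∈ D, G.Adj w z → w = y) :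
    False := by
  obtain ⟨y', hy', a', ly⟩ := h.leaf hz
  have e : y' = y := lz y' hy' a'.symm
  subst e
  obtain ⟨u, u1, u2, hu⟩ := htw y' z a.ne
  by_cases b : G.Adj u y'
  · exact h.swap hy hz a ly lz u2 b fun c => hu ⟨fun _ => c, fun _ => b⟩
  · refine h.swap hz hy a.symm lz ly u1 ?_ b
    by_contra c
    exact hu ⟨fun d => absurd d b, fun d => absurd d c⟩

theorem Opt.bound (h : Opt G D)
    (htw : ∀ u v, u ≠ v → ∃ w, w ≠ u ∧ w ≠ v ∧ ¬ (G.Adj w u ↔ G.Adj w v)) :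
    D.ncard ≤ 2 * Dᶜ.ncard := by
  classical
  have sepD : Sep (rl G) D (UP Dᶜ) := sep_UP.2 ⟨fun u _ => h.ltd.1 u, h.ltd.2⟩
  have hb0 : ∀ y, ∃ b, y ∈ Rb G D → Par G D y b := by
    intro y
    by_cases hy : y ∈ Rb G D
    · exact hy.2.imp fun b hb _ => hb
    · exact ⟨y, fun a => absurd a hy⟩
  choose b hb using hb0
  have hl0 : ∀ y, ∃ z, y ∈ Rc G D → z ∈ D ∧ G.Adj y z ∧ ∀ w ∈ D, G.Adj w z → w = y := by
    intro y
    by_cases hy : y ∈ Rc G D
    · exact (h.leaf hy).imp fun b hb _ => hb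
    · exact ⟨y, fun a => absurd a hy⟩
  choose l hl using hl0
  have bc : ∀ y ∈ Rb G D, y ∉ Rc G D := fun y h1 h2 => h2.2 h1.2
  have RbD : ∀ y ∈ Rb G D, y ∈ D := fun y hy => hy.1.1
  set E : Set V := {y | y ∈ D ∧ ¬ Red G D y} with hE
  set R : Set V := {y | Red G D y} with hR
  -- partners do not split a group
  have hom : ∀ y ∈ Rb G D, ∀ y1 ∈ Rb G D, ∀ y2 ∈ Rb G D, b y1 = b y2 →
      G.Adj y1 (b y) → G.Adj y2 (b y) := by
    intro y hy y1 h1 y2 h2 e a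
    by_cases e12 : y1 = y2
    · rw [← e12]; exact a
    by_cases e1 : y = y1
    · subst e1
      refine ((hb y hy).2 y2 (RbD _ h2) (Ne.symm e12)).1 (G.adj_symm ?_)
      exact ((hb y2 h2).2 y (RbD _ hy) e12).2 (e ▸ a)
    by_cases e2 : y = y2
    · subst e2
      rw [← e]
      refine ((hb y1 h1).2 y (RbD _ hy) e1).1 (G.adj_symm ?_)
      exact ((hb y hy).2 y1 (RbD _ h1) e12).2 a
    · have a1 := ((hb y hy).2 y1 (RbD _ h1) (Ne.symm e1)).2 a
      have a2 := ((hb y1 h1).2 y (RbD _ hy) e1).1 a1.symm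
      have a3 := ((hb y2 h2).2 y (RbD _ hy) e2).2 (e ▸ a2)
      exact ((hb y hy).2 y2 (RbD _ h2) (Ne.symm e2)).1 a3.symm
  set NH : Set V := {u | u ∉ D ∧ ∃ y1 ∈ Rb G D, ∃ y2 ∈ Rb G D, b y1 = b y2 ∧ G.Adj y1 u ∧
    ¬ G.Adj y2 u} with hNH
  obtain ⟨H, HN, Hb⟩ := Set.exists_subset_bijOn NH (fun u => {z | z ∈ R ∧ G.Adj z u})
  have Hrep : ∀ u ∈ NH, ∃ w ∈ H, ∀ z ∈ R, (G.Adj z w ↔ G.Adj z u) := by
    intro u hu
    obtain ⟨w, hw, e⟩ := Hb.surjOn ⟨u, hu, rfl⟩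
    refine ⟨w, hw, fun z hz => ?_⟩
    have := Set.ext_iff.1 e z
    simp only [Set.mem_ofPred_eq] at this
    exact ⟨fun a => (this.1 ⟨hz, a⟩).2, fun a => (this.2 ⟨hz, a⟩).2⟩
  have Hsep : ∀ y1 ∈ Rb G D, ∀ y2 ∈ Rb G D, b y1 = b y2 →
      (∀ w ∈ H, G.Adj w y1 ↔ G.Adj w y2) → y1 = y2 := by
    intro y1 h1 y2 h2 e hh
    by_contra hne
    obtain ⟨w, w1, w2, hw⟩ := htw y1 y2 hne
    have wD : w ∉ D := fun wD => hw (by
      rw [(hb y1 h1).2 w wD w1, (hb y2 h2).2 w wD w2, e])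
    have wN : w ∈ NH := by
      refine ⟨wD, ?_⟩
      by_cases a : G.Adj w y1
      · exact ⟨y1, h1, y2, h2, e, a.symm, fun c => hw ⟨fun _ => c.symm, fun _ => a⟩⟩
      · refine ⟨y2, h2, y1, h1, e.symm, ?_, fun c => a c.symm⟩
        by_contra c
        exact hw ⟨fun d => absurd d a, fun d => absurd d.symm c⟩
    obtain ⟨w', hw', e'⟩ := Hrep w wN
    apply hw
    rw [G.adj_comm w y1, G.adj_comm w y2, ← e' y1 h1.1, ← e' y2 h2.1, G.adj_comm y1 w',
      G.adj_comm y2 w']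
    exact hh w' hw'
  have hr0 : ∀ c, ∃ r, c ∈ b '' Rb G D → r ∈ Rb G D ∧ b r = c ∧
      ∀ y ∈ Rb G D, b y = c → (∀ w ∈ H, G.Adj w y ↔ G.Adj w c) → y = r := by
    intro c
    by_cases h1 : ∃ y ∈ Rb G D, b y = c ∧ ∀ w ∈ H, G.Adj w y ↔ G.Adj w c
    · obtain ⟨r, r1, r2, r3⟩ := h1
      exact ⟨r, fun _ => ⟨r1, r2, fun y y1 y2 y3 => Hsep y y1 r r1 (y2.trans r2.symm)
        fun w hw => (y3 w hw).trans (r3 w hw).symm⟩⟩
    · by_cases h2 : c ∈ b '' Rb G D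
      · obtain ⟨r, r1, r2⟩ := h2
        exact ⟨r, fun _ => ⟨r1, r2, fun y y1 y2 y3 => absurd ⟨y, y1, y2, y3⟩ h1⟩⟩
      · exact ⟨c, fun a => absurd a h2⟩
  choose rp hrp using hr0
  have rp1 : ∀ y ∈ Rb G D, rp (b y) ∈ Rb G D := fun y hy => (hrp _ ⟨y, hy, rfl⟩).1
  have rp2 : ∀ y ∈ Rb G D, b (rp (b y)) = b y := fun y hy => (hrp _ ⟨y, hy, rfl⟩).2.1
  set K1 : Set V := rp '' (b '' Rb G D) with hK1
  set St : Set V := {v | v ∈ D ∧ ∀ w ∈ D, G.Adj w v → w ∈ Rb G D ∧ w ∉ K1} with hSt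
  choose nb nb1 nb2 using h.ltd.1
  set K : Set V := K1 ∪ nb '' St with hK
  set Y0 : Set V := Rb G D \ K with hY0
  have rpK : ∀ y ∈ Rb G D, rp (b y) ∈ K1 := fun y hy => ⟨b y, ⟨y, hy, rfl⟩, rfl⟩
  have k3 : ∀ v ∈ D, ∃ w ∈ D, w ∉ Y0 ∧ G.Adj w v := by
    intro v hv
    by_cases hs : v ∈ St
    · exact ⟨nb v, nb1 v, fun a => a.2 (Or.inr ⟨v, hs, rfl⟩), nb2 v⟩
    · by_contra hn
      refine hs ⟨hv, fun w hw a => ?_⟩
      have : w ∈ Y0 := by
        by_contra c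
        exact hn ⟨w, hw, c, a⟩
      exact ⟨this.1, fun c => this.2 (Or.inl c)⟩
  obtain ⟨Y, ⟨Y1, Y2⟩, Y3⟩ := Set.exists_max_image
    {Y | Y ⊆ Y0 ∧ Sep (rl G) (D \ Y) (UP Dᶜ)} Set.ncard (Set.toFinite _)
    ⟨∅, Set.empty_subset _, by simpa using sepD⟩
  obtain ⟨s1, s2⟩ := sep_UP.1 Y2
  -- exchange
  have ex : Y.ncard ≤ H.ncard := by
    have agree : ∀ y ∈ Y, ∀ z ∈ D \ Y, (G.Adj z y ↔ G.Adj z (b y)) := fun y hy z hz =>
      (hb y (Y1 hy).1).2 z hz.1 fun e => hz.2 (e ▸ hy)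
    have mixed : ∀ y ∈ Y, ∀ u ∉ D, ¬ ∀ z ∈ D \ Y ∪ H, (G.Adj z y ↔ G.Adj z u) := by
      intro y hy u hu e
      have yb := (Y1 hy).1
      have e1 : b y = u := s2 _ (hb y yb).1 u hu fun z hz =>
        (agree y hy z hz).symm.trans (e z (Or.inl hz))
      have e2 := (hrp _ ⟨y, yb, rfl⟩).2.2 y yb rfl fun w hw => e1 ▸ e w (Or.inr hw)
      exact (Y1 hy).2 (Or.inl (e2 ▸ rpK y yb))
    have : LTD G (D \ Y ∪ H) := by
      refine ⟨fun v => ?_, fun u hu v hv e => ?_⟩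
      · by_cases hv : v ∈ D
        · obtain ⟨w, w1, w2, w3⟩ := k3 v hv
          exact ⟨w, Or.inl ⟨w1, fun a => w2 (Y1 a)⟩, w3⟩
        · obtain ⟨w, w1, w2⟩ := s1 v hv
          exact ⟨w, Or.inl w1, w2⟩
      · have cs : ∀ x ∉ D \ Y ∪ H, x ∈ Y ∨ x ∉ D := fun x hx => by
          by_contra c
          rw [not_or, not_not] at c
          exact hx (Or.inl ⟨c.2, c.1⟩)
        rcases cs u hu with h1 | h1 <;> rcases cs v hv with h2 | h2
        · refine Hsep u (Y1 h1).1 v (Y1 h2).1 ?_ fun w hw => e w (Or.inr hw)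
          exact s2 _ (hb u (Y1 h1).1).1 _ (hb v (Y1 h2).1).1 fun z hz =>
            ((agree u h1 z hz).symm.trans (e z (Or.inl hz))).trans (agree v h2 z hz)
        · exact absurd e (mixed u h1 v h2)
        · exact absurd (fun z hz => (e z hz).symm) (mixed v h2 u h1)
        · exact s2 u h1 v h2 fun z hz => e z (Or.inl hz)
    have h1 := h.min _ this
    have h2 := Set.ncard_union_le (D \ Y) H
    have h3 := Set.ncard_sdiff_add_ncard_of_subset (s := Y) (t := D)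
      (fun y hy => RbD y (Y1 hy).1) (Set.toFinite _)
    omega
  set E2 : Set V := l '' Rc G D ∩ E with hE2
  set Lb : Set V := l '' Rc G D ∩ Rb G D with hLb
  have c2 : ∀ y ∈ Rb G D, ∀ z ∈ E2, ¬ G.Adj z (b y) := by
    rintro y hy z ⟨⟨y', hy', rfl⟩, hz⟩ a
    have a1 := ((hb y hy).2 _ hz.1 (fun e => hz.2 (e ▸ hy.1))).2 a
    exact bc y hy ((hl y' hy').2.2 y (RbD y hy) a1.symm ▸ hy')
  have cA : (b '' Rb G D).ncard + 1 + (E2.ncard + (Y0 \ Y).ncard) ≤ Dᶜ.ncard + 1 := by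
    have := bondy (rl G) (UP Dᶜ) (D \ Y) (D \ (E2 ∪ Y0))
      (fun z hz => ⟨hz.1, fun a => hz.2 (Or.inr (Y1 a))⟩) Y2 (E2 ∪ Y0 \ Y) (by
        rintro z (hz | hz)
        · refine ⟨⟨hz.2.1, fun a => hz.2.2 (Y1 a).1.1⟩, fun a => a.2 (Or.inl hz), ?_⟩
          obtain ⟨p, hp, q, hq, e1, e2⟩ := not_sep (fun a => hz.2.2 ⟨hz.2.1, a⟩)
          exact ⟨p, hp, q, hq, e1, fun w hw => e2 w hw.1⟩
        · refine ⟨⟨RbD z hz.1.1, hz.2⟩, fun a => a.2 (Or.inr hz.1), not_sep fun a => ?_⟩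
          have := Y3 (insert z Y) ⟨Set.insert_subset hz.1 Y1, by
            rwa [Set.sdiff_sdiff, Set.union_singleton] at a⟩
          rw [Set.ncard_insert_of_notMem hz.2] at this
          omega) (UP (b '' Rb G D)) (UP_mono (by
        rintro _ ⟨y, hy, rfl⟩
        exact (hb y hy).1)) (by
        have red : ∀ p ∈ UP (b '' Rb G D), ∀ z ∈ D, rl G z p →
            ∃ z' ∈ D \ (E2 ∪ Y0), rl G z' p ∧
              ∀ q ∈ UP (b '' Rb G D), rl G z' q → rl G z q := by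
          rintro p (rfl | ⟨_, ⟨y, hy, rfl⟩, rfl⟩) z hz a
          · exact a.elim
          by_cases z0 : z ∈ Y0
          · refine ⟨rp (b z), ⟨RbD _ (rp1 z z0.1), ?_⟩,
              hom y hy z z0.1 _ (rp1 z z0.1) (rp2 z z0.1).symm a, ?_⟩
            · rintro (c | c)
              · exact c.2.2 (rp1 z z0.1).1
              · exact c.2 (Or.inl (rpK z z0.1))
            · rintro q (rfl | ⟨_, ⟨y', hy', rfl⟩, rfl⟩) a'
              · exact a'.elim
              · exact hom y' hy' _ (rp1 z z0.1) z z0.1 (rp2 z z0.1) a'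
          · refine ⟨z, ⟨hz, ?_⟩, a, fun q _ a' => a'⟩
            rintro (c | c)
            · exact c2 y hy z c a
            · exact z0 c
        intro p hp q hq e
        have sub : UP (b '' Rb G D) ⊆ UP Dᶜ := UP_mono (by
          rintro _ ⟨y, hy, rfl⟩
          exact (hb y hy).1)
        refine sepD p (sub hp) q (sub hq) fun z hz => ⟨fun a => ?_, fun a => ?_⟩
        · obtain ⟨z', h1, h2, h3⟩ := red p hp z hz a
          exact h3 q hq ((e z' h1).1 h2)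
        · obtain ⟨z', h1, h2, h3⟩ := red q hq z hz a
          exact h3 p hp ((e z' h1).2 h2))
    rwa [UP_card, UP_card, Set.ncard_union_eq (Set.disjoint_left.2 fun z h1 h2 =>
      h1.2.2 h2.1.1.1)] at this
  have tp : ∀ v ∈ St ∪ Lb, v ∈ Rb G D ∧ rp (b v) = v ∧ ∀ z ∈ D, G.Adj z v → z ∈ R := by
    rintro v (hv | hv)
    · have w1 := hv.2 _ (nb1 v) (nb2 v)
      have e : v = rp (b (nb v)) := by
        by_contra hne
        have a1 := ((hb _ w1.1).2 v hv.1 (nb2 v).ne.symm).1 (nb2 v).symm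
        have a2 := ((hb _ (rp1 _ w1.1)).2 v hv.1 hne).2 (by rw [rp2 _ w1.1]; exact a1)
        exact (hv.2 _ (RbD _ (rp1 _ w1.1)) a2.symm).2 (rpK _ w1.1)
      refine ⟨e ▸ rp1 _ w1.1, ?_, fun z hz a => (hv.2 z hz a).1.1⟩
      have : b v = b (nb v) := by
        conv_lhs => rw [e]
        exact rp2 _ w1.1
      rw [this]
      exact e.symm
    · obtain ⟨⟨y, hy, rfl⟩, hv⟩ := hv
      refine ⟨hv, ?_, fun z hz a => (hl y hy).2.2 z hz a ▸ hy.1⟩
      by_contra hne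
      obtain ⟨x, hx, a⟩ := (sep_UP.1 hy.1.2).1 _ (hb _ hv).1
      have e : x = l y := by
        by_contra c
        exact hx.2 ((hl y hy).2.2 x hx.1 (((hb _ hv).2 x hx.1 c).2 a))
      have a2 := ((hb _ (rp1 _ hv)).2 _ (RbD _ hv) (Ne.symm hne)).2
        (by rw [rp2 _ hv]; exact e ▸ a)
      have e3 := (hl y hy).2.2 _ (RbD _ (rp1 _ hv)) a2.symm
      exact bc y (e3 ▸ rp1 _ hv) hy
  have cB : St.ncard + Lb.ncard + H.ncard + 1 + E.ncard ≤ Dᶜ.ncard + 1 := by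
    have tr : ∀ v ∈ St ∪ Lb, ∀ z ∈ D, G.Adj z (b v) → z ∈ R := by
      intro v hv z hz a
      by_cases e : z = v
      · exact e ▸ (tp v hv).1.1
      · exact (tp v hv).2.2 z hz (((hb v (tp v hv).1).2 z hz e).2 a)
    have nh : ∀ v ∈ St ∪ Lb, ∀ w ∈ H, ¬ ∀ z ∈ R, (G.Adj z (b v) ↔ G.Adj z w) := by
      intro v hv w hw e
      obtain ⟨_, y1, h1, y2, h2, e1, a1, a2⟩ := HN hw
      exact a2 ((e y2 h2.1).1 (hom v (tp v hv).1 y1 h1 y2 h2 e1 ((e y1 h1.1).2 a1)))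
    have := bondy (rl G) (UP Dᶜ) D R (fun z hz => hz.1) sepD E (fun z hz =>
      ⟨hz.1, hz.2, not_sep fun a => hz.2 ⟨hz.1, a⟩⟩) (UP (b '' (St ∪ Lb) ∪ H)) (UP_mono (by
        rintro _ (⟨y, hy, rfl⟩ | hw)
        · exact (hb y (tp y hy).1).1
        · exact (HN hw).1)) (sep_UP.2 ⟨by
        rintro _ (⟨y, hy, rfl⟩ | hw)
        · exact ⟨_, tr y hy _ (nb1 _) (nb2 _), nb2 _⟩
        · obtain ⟨_, y1, h1, _, _, _, a1, _⟩ := HN hw
          exact ⟨y1, h1.1, a1⟩, by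
        rintro u (⟨y, hy, rfl⟩ | hw) v (⟨y', hy', rfl⟩ | hw') e
        · exact h.ltd.2 _ (hb y (tp y hy).1).1 _ (hb y' (tp y' hy').1).1 fun z hz =>
            ⟨fun a => (e z (tr y hy z hz a)).1 a, fun a => (e z (tr y' hy' z hz a)).2 a⟩
        · exact absurd e (nh y hy _ hw')
        · exact absurd (fun z hz => (e z hz).symm) (nh y' hy' _ hw)
        · refine Hb.injOn hw hw' (Set.ext fun z => ?_)
          exact and_congr_right fun hz => e z hz⟩)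
    have d1 : Disjoint (b '' (St ∪ Lb)) H := Set.disjoint_left.2 (by
      rintro _ ⟨y, hy, rfl⟩ hw
      exact nh y hy _ hw fun _ _ => Iff.rfl)
    have d2 : Disjoint St Lb := Set.disjoint_left.2 (by
      rintro _ hs ⟨⟨y, hy, rfl⟩, _⟩
      exact bc y (hs.2 y hy.1.1 (hl y hy).2.1).1 hy)
    have i1 : Set.InjOn b (St ∪ Lb) := fun u hu v hv e => by
      rw [← (tp u hu).2.1, ← (tp v hv).2.1, e]
    rwa [UP_card, UP_card, Set.ncard_union_eq d1, i1.ncard_image, Set.ncard_union_eq d2] at this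
  have t1 : D.ncard ≤ E.ncard + (Rb G D).ncard + (Rc G D).ncard := by
    refine le_trans (Set.ncard_le_ncard (t := E ∪ Rb G D ∪ Rc G D) ?_)
      ((Set.ncard_union_le _ _).trans (Nat.add_le_add_right (Set.ncard_union_le _ _) _))
    intro y hy
    by_cases h1 : Red G D y
    · by_cases h2 : ∃ c, Par G D y c
      · exact Or.inl (Or.inr ⟨h1, h2⟩)
      · exact Or.inr ⟨h1, h2⟩
    · exact Or.inl (Or.inl ⟨hy, h1⟩)
  have t2 : (Rc G D).ncard ≤ E2.ncard + Lb.ncard := by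
    have i1 : Set.InjOn l (Rc G D) := fun u hu v hv e =>
      (hl v hv).2.2 u hu.1.1 (e ▸ (hl u hu).2.1)
    rw [← i1.ncard_image]
    refine le_trans (Set.ncard_le_ncard (t := E2 ∪ Lb) ?_) (Set.ncard_union_le _ _)
    rintro _ ⟨y, hy, rfl⟩
    by_cases h1 : Red G D (l y)
    · by_cases h2 : ∃ c, Par G D (l y) c
      · exact Or.inr ⟨⟨y, hy, rfl⟩, h1, h2⟩
      · exact (h.claim1 htw hy ⟨h1, h2⟩ (hl y hy).2.1 (hl y hy).2.2).elim
    · exact Or.inl ⟨⟨y, hy, rfl⟩, (hl y hy).1, h1⟩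
  have t3 : (Rb G D).ncard ≤ K.ncard + ((Y0 \ Y).ncard + Y.ncard) := by
    refine le_trans (Set.ncard_le_ncard (t := K ∪ (Y0 \ Y ∪ Y)) ?_)
      ((Set.ncard_union_le _ _).trans (Nat.add_le_add_left (Set.ncard_union_le _ _) _))
    intro y hy
    by_cases h1 : y ∈ K
    · exact Or.inl h1
    · by_cases h2 : y ∈ Y
      · exact Or.inr (Or.inr h2)
      · exact Or.inr (Or.inl ⟨⟨hy, h1⟩, h2⟩)
  have t4 : K.ncard ≤ (b '' Rb G D).ncard + St.ncard :=
    (Set.ncard_union_le _ _).trans (Nat.add_le_add (Set.ncard_image_le (Set.toFinite _))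
      (Set.ncard_image_le (Set.toFinite _)))
  omega

end Pool.Agent.H.MP_94f1c2_co
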